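import Mathlib
import Pool.Agent.H23.GcdAbs

open Pool.Agent.H23.GcdRun

theorem Pool.Agent.Results.MP_e7655a_nt.FactorBound.full
    (p : ℕ) (hp : p.Prime) (a : ℕ → ℤ)
    (hrec : ∀ n : ℕ, 2 ≤ n → a n = |a (n - 1) - Int.gcd (a (n - 1)) ((n : ℤ) ^ p - 1)|)
    (n₁ n₂ : ℕ) (h1 : 1 ≤ n₁) (h12 : n₁ < n₂) (hz1 : a n₁ = 0) (hz2 : a n₂ = 0)
    (hmid : ∀ k, n₁ < k → k < n₂ → a k ≠ 0)
    (T : ℤ) (hT : T = 3 * (n₂ : ℤ) - 2 * (((n₁ : ℤ) + 1) ^ p - 1) - 3 * ((n₁ : ℤ) + 1)) :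
    (∀ r : ℕ, r.Prime → (r : ℤ) ∣ ((n₂ : ℤ) + 1) ^ p - 1 → T < r) ∧
    (0 ≤ T → (n₂ : ℤ) ≤ T ^ 2 → n₂.Prime) ∧
    (p = 2 → (n₂.Prime ∧ (n₂ + 2).Prime) ∨ 3 * n₂ ≤ 2 * n₁ ^ 2 + 8 * n₁ + 4) := by
  have hR : ∀ m : ℕ, 2 ≤ m → (0 : ℤ) < (m : ℤ) ^ p - 1 := by
    intro m hm
    have h2 : (1 : ℤ) < m := by exact_mod_cast hm
    have := one_lt_pow₀ h2 hp.ne_zero
    linarith
  obtain ⟨hA, hrun⟩ := run_of_abs a (fun n => (n : ℤ) ^ p - 1) hR hrec n₁ n₂ h1 h12 hz1 hz2 hmid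
  have hfac : ∀ r : ℕ, r.Prime → (r : ℤ) ∣ ((n₂ : ℤ) + 1) ^ p - 1 → T < r := by
    intro r hr hd
    have := hrun.factor (fun P => P ^ p - 1) (fun n => (n : ℤ) ^ p - 1) (fun _ _ => rfl)
      (fun P m => by
        have e : P ^ p - 1 - ((m : ℤ) ^ p - 1) = P ^ p - (m : ℤ) ^ p := by ring
        rw [e]
        exact sub_dvd_pow_sub_pow _ _ _)
      (fun m hm => (hR m (by omega)).ne') r hr hd
    rw [hA] at this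
    push_cast at this
    rw [hT]
    linarith
  have hn : (n₂ : ℤ) ∣ ((n₂ : ℤ) + 1) ^ p - 1 := by
    have := sub_dvd_pow_sub_pow ((n₂ : ℤ) + 1) 1 p
    simpa using this
  have hpr : 0 ≤ T → (n₂ : ℤ) ≤ T ^ 2 → n₂.Prime := fun h0 h2 =>
    prime_of_factors n₂ (by omega) T h0 h2
      (fun r hr hd => hfac r hr ((Int.natCast_dvd_natCast.mpr hd).trans hn))
  refine ⟨hfac, hpr, ?_⟩
  rintro rfl
  by_cases hc : 3 * n₂ ≤ 2 * n₁ ^ 2 + 8 * n₁ + 4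
  · exact Or.inr hc
  left
  have hc' : 2 * (n₁ : ℤ) ^ 2 + 8 * n₁ + 5 ≤ 3 * n₂ := by
    exact_mod_cast (by omega : 2 * n₁ ^ 2 + 8 * n₁ + 5 ≤ 3 * n₂)
  have hT2 : (n₁ : ℤ) + 2 ≤ T := by rw [hT]; nlinarith
  have hm := hrun.mono' le_rfl hrun.le le_rfl
  rw [hA, hz2] at hm
  push_cast at hm
  have h0 : (0 : ℤ) ≤ n₁ := by positivity
  have hb : (n₂ : ℤ) + 2 ≤ T ^ 2 := by nlinarith
  refine ⟨hpr (by linarith) (by linarith), ?_⟩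
  apply prime_of_factors (n₂ + 2) (by omega) T (by linarith) (by exact_mod_cast hb)
  intro r hr hd
  apply hfac r hr
  have e : ((n₂ : ℤ) + 1) ^ 2 - 1 = ((n₂ + 2 : ℕ) : ℤ) * n₂ := by push_cast; ring
  rw [e]
  exact (Int.natCast_dvd_natCast.mpr hd).mul_right _

theorem Pool.Agent.Results.MP_e7655a_nt.FactorBound.result
    (p : ℕ) (hp : p.Prime) (a : ℕ → ℤ)
    (hrec : ∀ n : ℕ, 2 ≤ n → a n = |a (n - 1) - Int.gcd (a (n - 1)) ((n : ℤ) ^ p - 1)|)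
    (n₁ n₂ : ℕ) (h1 : 1 ≤ n₁) (h12 : n₁ < n₂) (hz1 : a n₁ = 0) (hz2 : a n₂ = 0)
    (hmid : ∀ k, n₁ < k → k < n₂ → a k ≠ 0)
    (T : ℤ) (hT : T = 3 * (n₂ : ℤ) - 2 * (((n₁ : ℤ) + 1) ^ p - 1) - 3 * ((n₁ : ℤ) + 1)) :
    ∀ r : ℕ, r.Prime → (r : ℤ) ∣ ((n₂ : ℤ) + 1) ^ p - 1 → T < r :=
  (Pool.Agent.Results.MP_e7655a_nt.FactorBound.full p hp a hrec n₁ n₂ h1 h12 hz1 hz2 hmid T hT).1
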